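import Pool.Agent.R660.CF.Tilde
import Pool.Agent.R660.CF.Mono

/-!
# Monotonicity in `a` of the entropy of `(a,b)`-continued fraction maps

`ft e a b` is the map of `[-1, 1]` of the problem, `Dt e a b n` is the set `D_n`, and
`lapsC e a b n` is the number of connected components of `(-1, 1) \ D_n`.
-/

set_option autoImplicit false

namespace Pool.Agent.Results.MP_c34b65_an.EntropyMonotone

open Filter Topology Set Pool.Agent.R660.CF

/-- There is a function `H` on the parameter set such that `D_n` is finite and
`log ℓ_n / n → H a b` for every `(a, b)` in `𝒫` (whichever of the two values `1`, `-1` is used for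
the middle branch at its jump `0`), and for every `b` in `[0, 1/2]` the function `a ↦ H a b` is
monotone non-decreasing on the set of the `a` with `(a, b)` in `𝒫`. -/
theorem result : ∃ H : ℝ → ℝ → ℝ,
    (∀ e a b : ℝ, (e = 1 ∨ e = -1) → InP a b →
      (∀ n : ℕ, (Dt e a b n).Finite) ∧
      Tendsto (fun n : ℕ => Real.log (lapsC e a b n) / n) atTop (𝓝 (H a b))) ∧
    ∀ b : ℝ, 0 ≤ b → b ≤ 1 / 2 → MonotoneOn (fun a : ℝ => H a b) {a : ℝ | InP a b} := by
  classical
  refine ⟨fun a b => if h : InP a b then (exists_entropy h).choose else 0, ?_, ?_⟩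
  · intro e a b _ hab
    refine ⟨fun n => Dt_finite hab n, ?_⟩
    rw [entropy_lapsC hab]
    simp only [dif_pos hab]
    exact (exists_entropy hab).choose_spec
  · intro b hb hb2 a' hab' a hab haa
    have h1 : InP a' b := hab'
    have h2 : InP a b := hab
    simp only
    rw [dif_pos h1, dif_pos h2]
    exact mono_entropy h2 h1 haa hb2 (exists_entropy h1).choose_spec (exists_entropy h2).choose_spec

end Pool.Agent.Results.MP_c34b65_an.EntropyMonotone
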